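import Pool.Agent.Q50.MM.Defs
import Pool.Agent.Q50.MB.Main

/-!
# Modularity of elliptic curves from classes modulo infinitely many primes
-/

set_option autoImplicit false
set_option maxHeartbeats 4000000
set_option synthInstance.maxHeartbeats 400000
set_option linter.unusedSectionVars false
set_option linter.ambiguousOpen false

open NumberField

namespace Pool.Agent.Q50.ES.MM

open MS (Mod Irreducible InSpan2)
open MC (UpperDensityIn InClass NoQuadratic)
open MB (Level NonZero)

/-- An algebraic integer with zero reduction at infinitely many primes is zero. -/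
theorem eq_zero_of_red (k : ℕ → Type) [∀ p, Field (k p)] (red : ∀ p, Integers →+* k p)
    (hc : ∀ p, Large p → CharP (k p) p) (a : Integers)
    (h : InfinitelyMany fun p => Large p ∧ red p a = 0) : a = 0 := by
  by_contra ha
  have hint : IsIntegral ℤ a := Algebra.IsIntegral.isIntegral a
  obtain ⟨P, hP0, h1⟩ := hint.isAlgebraic.exists_nonzero_coeff_and_aeval_eq_zero
    (mem_nonZeroDivisors_of_ne_zero ha)
  obtain ⟨p, hp, hlp, hpa⟩ := h (Int.natAbs (P.coeff 0) + 1)
  have hch := hc p hlp
  have h2 : red p (Polynomial.aeval a P) = 0 := by rw [h1, map_zero]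
  rw [Polynomial.aeval_def, Polynomial.hom_eval₂, hpa, Polynomial.eval₂_at_zero] at h2
  have h3 : ((P.coeff 0 : ℤ) : k p) = 0 := by
    rw [← h2]
    simp
  rw [CharP.intCast_eq_zero_iff (k p) p] at h3
  have h4 : p ≤ Int.natAbs (P.coeff 0) :=
    Nat.le_of_dvd (Int.natAbs_pos.2 hP0) (Int.natCast_dvd.1 h3)
  omega

/-- Pigeonhole principle. -/
theorem exists_infinitelyMany {ι : Type} [Finite ι] {P : ι → ℕ → Prop}
    (h : InfinitelyMany fun p => ∃ i, P i p) : ∃ i, InfinitelyMany (P i) := by
  classical
  by_contra hcon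
  push Not at hcon
  have h1 : ∀ i, ∃ B : ℕ, ∀ p, B ≤ p → ¬ P i p := by
    intro i
    have := hcon i
    unfold InfinitelyMany at this
    push Not at this
    exact this
  choose B hB using h1
  have := Fintype.ofFinite ι
  obtain ⟨p, hp, i, hi⟩ := h (Finset.univ.sup B)
  exact hB i p ((Finset.le_sup (Finset.mem_univ i)).trans hp) hi

namespace Data

variable {T : Data}

theorem admissible_self {F : Fld} (hF : Quadratic F) (p : ℕ) (E : T.Curve F)
    (hr : Irreducible (T.tors p E)) : T.Admissible p E F 1 := by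
  refine ⟨⟨le_rfl, hF.1.1, fun g hg x hx => ?_⟩, ?_, hr, F.fixingSubgroup.one_mem⟩
  · have h1 : g x = x := (IntermediateField.mem_fixingSubgroup_iff F g).1 hg x hx
    rw [h1]
    exact hx
  · intro H h1 h2 h3
    have : H = F.fixingSubgroup := le_antisymm h2 h1
    rw [this, Subgroup.relIndex_self] at h3
    exact absurd h3 (by norm_num)

/-- A class modulo `p` which satisfies most identities gives an eigenvector which satisfies all. -/
theorem exists_eigen (hT : T.Facts) {F : Fld} (hF : Quadratic F) {N : Level F} (hN : NonZero N)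
    {E : T.Curve F} {p : ℕ} (hp : Large p) (h : T.ModularMod N E p) :
    ∃ e : T.H p F N, T.Eigen p e ∧
      ∀ w, T.Prime p N w → T.Away (T.cond E) w → T.Identity p E e w := by
  classical
  obtain ⟨L, τ, ⟨hL, hnq, hirr, hτ⟩, c, hc, hd⟩ := h
  have hcl := hT.basic.closed p hp
  have hfin := hT.cohomology.finite p F N hF hN hp
  let W : Submodule (T.k p) (T.H p F N) :=
    { carrier := {x | ∀ w, T.Prime p N w → T.Identity p E c w → T.Identity p E x w}
      add_mem' := by
        intro x y hx hy w hw hi
        change T.hecke p w (x + y) = _ • (x + y)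
        have h1 : T.hecke p w x = _ • x := hx w hw hi
        have h2 : T.hecke p w y = _ • y := hy w hw hi
        rw [map_add, h1, h2, smul_add]
      zero_mem' := by
        intro w _ _
        change T.hecke p w 0 = _ • 0
        rw [map_zero, smul_zero]
      smul_mem' := by
        intro a x hx w hw hi
        change T.hecke p w (a • x) = _ • (a • x)
        have h1 : T.hecke p w x = _ • x := hx w hw hi
        rw [map_smul, h1, smul_comm] }
  have hcW : c ∈ W := fun w _ hi => hi
  obtain ⟨e, heW, he0, he⟩ := MB.exists_eigenvector (V := T.H p F N)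
    (fun w : T.place F => T.hecke p w) (fun w => T.Prime p N w)
    (fun v w hv hw x => hT.cohomology.comm p F N v w x hv hw) _ W rfl (by
      intro h
      rw [h, Submodule.mem_bot] at hcW
      exact hc hcW) (by
      intro v hv x hx w hw hi
      change T.hecke p w (T.hecke p v x) = _ • T.hecke p v x
      have h1 : T.hecke p w x = _ • x := hx w hw hi
      rw [hT.cohomology.comm p F N w v x hw hv, h1, map_smul])
  obtain ⟨s, hsc, hs⟩ := hT.scholze F N p e hF hN hp ⟨he0, he⟩
  obtain ⟨hdet, htr⟩ := hT.torsion F p E hp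
  obtain ⟨P, hP⟩ := MC.iso_of_density (hT.basic.chebotarev F hF) (hT.basic.frob_mem F) hL hτ
    (T.tors p E) s hirr (by
      obtain ⟨δ, hδ, hfr⟩ := hd
      refine ⟨δ, hδ, hfr.mono fun x hx => hx.trans ?_⟩
      have hfx : ({w : T.place F | T.norm w ≤ x}).Finite := hT.basic.places F x hF
      exact_mod_cast Set.ncard_le_ncard (by
        rintro w ⟨⟨⟨hw, hwE, hi⟩, hwc⟩, hwx⟩
        refine ⟨⟨⟨hwc, ?_⟩, hwc⟩, hwx⟩
        have h1 : T.hecke p w e = (T.point E w : T.k p) • e := heW w hw hi
        have h2 : T.hecke p w e = (s.toFun (T.frob w)).trace • e := hs w hw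
        have h3 : ((T.point E w : T.k p) - (s.toFun (T.frob w)).trace) • e = 0 := by
          rw [sub_smul, ← h1, ← h2, sub_self]
        rw [htr w hwE hw.2]
        exact sub_eq_zero.1 ((smul_eq_zero.1 h3).resolve_right he0))
        (hfx.subset Set.inter_subset_right))
  have hiso := MC.iso_of_det hL hnq (T.tors p E) s hirr
    (fun g hg => (hdet g hg).trans (hsc g hg).symm) hP
  refine ⟨e, ⟨he0, he⟩, fun w hw hwE => ?_⟩
  have h1 : T.hecke p w e = (s.toFun (T.frob w)).trace • e := hs w hw
  change T.hecke p w e = _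
  rw [h1, ← htr w hwE hw.2, hiso _ (hT.basic.frob_mem F w), Matrix.trace_mul_comm, ← mul_assoc,
    ← Units.val_mul, inv_mul_cancel, Units.val_one, one_mul]

/-- **One curve.** -/
theorem modular_iff (hT : T.Facts) {F : Fld} (hF : Quadratic F) (E : T.Curve F)
    (hE : ¬ T.CMBase E) : T.Modular E ↔ T.ModularModMany E := by
  classical
  rw [hT.matching F E hF hE]
  constructor
  · rintro ⟨N, hN, f, hf⟩
    refine ⟨N, hN, fun B => ?_⟩
    obtain ⟨p, hp, hlp, hirr⟩ := hT.irreducible F E hF hE B
    have ha := admissible_self hF p E hirr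
    obtain ⟨c, hc, hcf⟩ := hT.reduction F N p f hF hN hlp
    refine ⟨p, hp, hlp, F, 1, ha, c, hc, ?_⟩
    have h1 : {w | T.Prime p N w ∧ T.Away (T.cond E) w ∧ T.Identity p E c w} =
        {w : T.place F | T.Prime p N w ∧ T.Away (T.cond E) w} := by
      ext w
      refine ⟨fun hw => ⟨hw.1, hw.2.1⟩, fun hw => ⟨hw.1, hw.2, ?_⟩⟩
      change T.hecke p w c = _
      rw [hcf w hw.1, hf w hw.1.1 hw.2, eq_intCast, map_intCast]
    rw [h1]
    exact hT.almost F N E p F 1 hF hN hlp ha.1 ha.2.2.2
  · rintro ⟨N, hN, hmany⟩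
    refine ⟨N, hN, ?_⟩
    obtain ⟨B, hB⟩ := hT.lifting F N hF hN
    have hfinS := hT.cohomology.systems F N hF hN
    -- for infinitely many `p` a system of eigenvalues has the right reductions
    obtain ⟨f, hf⟩ := exists_infinitelyMany (ι := T.System F N)
      (P := fun f p => Large p ∧ ∀ w, T.Prime p N w → T.Away (T.cond E) w →
        T.red p (T.eig f w) = (T.point E w : T.k p)) (by
        intro B'
        obtain ⟨p, hp, hlp, hmod⟩ := hmany (max B B')
        obtain ⟨e, he, hid⟩ := exists_eigen hT hF hN hlp hmod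
        obtain ⟨f, hf⟩ := hB p hlp ((le_max_left _ _).trans hp) e he
        refine ⟨p, (le_max_right _ _).trans hp, f, hlp, fun w hw hwE => ?_⟩
        have h1 : T.hecke p w e = T.red p (T.eig f w) • e := hf w hw
        have h2 : T.hecke p w e = (T.point E w : T.k p) • e := hid w hw hwE
        have h3 : (T.red p (T.eig f w) - (T.point E w : T.k p)) • e = 0 := by
          rw [sub_smul, ← h1, ← h2, sub_self]
        exact sub_eq_zero.1 ((smul_eq_zero.1 h3).resolve_right he.1))
    refine ⟨f, fun w hw hwE => ?_⟩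
    rw [← sub_eq_zero]
    refine eq_zero_of_red T.k T.red hT.basic.char _ fun B' => ?_
    -- avoid the prime below `w`
    by_cases hov : ∃ q, T.Over q w
    · obtain ⟨q, hq⟩ := hov
      obtain ⟨p, hp, hlp, hr⟩ := hf (max B' (q + 1))
      refine ⟨p, (le_max_left _ _).trans hp, hlp, ?_⟩
      have hpq : ¬ T.Over p w := by
        intro h
        have h1 := hT.basic.overOne F w p q h hq
        have h2 := (le_max_right B' (q + 1)).trans hp
        omega
      rw [map_sub, hr w ⟨hw, hpq⟩ hwE, eq_intCast, map_intCast, sub_self]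
    · obtain ⟨p, hp, hlp, hr⟩ := hf B'
      refine ⟨p, hp, hlp, ?_⟩
      rw [map_sub, hr w ⟨hw, fun h => hov ⟨p, h⟩⟩ hwE, eq_intCast, map_intCast, sub_self]

/-- **All curves.** -/
theorem all_iff (hT : T.Facts) :
    (∀ F, Quadratic F → ∀ E : T.Curve F, ¬ T.CMBase E → T.Modular E) ↔
      ∀ F, Quadratic F → ∀ E : T.Curve F, ¬ T.CMBase E → T.ModularModMany E :=
  ⟨fun h F hF E hE => (modular_iff hT hF E hE).1 (h F hF E hE),
    fun h F hF E hE => (modular_iff hT hF E hE).2 (h F hF E hE)⟩

end Data

end Pool.Agent.Q50.ES.MM
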