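import Pool.Agent.Q50.MB.Defs

/-!
# Elliptic curves over imaginary quadratic fields and cohomology modulo infinitely many primes: data
and known facts
-/

set_option autoImplicit false

open NumberField

namespace Pool.Agent.Q50.ES.MM

open MS (Mod Irreducible InSpan2)
open MC (UpperDensityIn InClass NoQuadratic)
open MB (Level NonZero)

/-- `F` is an imaginary quadratic field. -/
def Quadratic (F : Fld) : Prop := ES.GE.ImaginaryQuadratic F

/-- The algebraic integers. -/
noncomputable abbrev Integers : Type := integralClosure ℤ Ω

/-- The prime numbers `p > 3`. -/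
def Large (p : ℕ) : Prop := p.Prime ∧ 3 < p

/-- The property is true for infinitely many natural numbers. -/
def InfinitelyMany (P : ℕ → Prop) : Prop := ∀ B : ℕ, ∃ p, B ≤ p ∧ P p

/-- Elliptic curves and cohomology modulo `p` for all primes `p`. `k p`: an algebraic closure of the field
with `p` elements, `cyclo p`: the cyclotomic character modulo `p`, `red p`: a homomorphism from the
ring of all algebraic integers to `k p`. `Curve F`: the elliptic curves over `F`; `tors p E`: the
representation of `Gal(Ω/F)` on `E[p]`, scalars extended to `k p`; `cond E`: the conductor; `CMBase E`: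
`E` has complex multiplication by an order in `F`; `Modular E`, `F` imaginary quadratic: `E` is modular
by a Bianchi newform of weight 2; `point E w = a_w(E)`. `place F`: the finite places of `F`; `norm w`:
the number of elements of the residue field; `frob w`: a Frobenius element in `Gal(Ω/F)`; `Away N w`:
`w` does not divide `N` and is unramified over `ℚ`; `Over p w`: `w` divides `p`. `H p F N`, `F` imaginary quadratic: the cohomology
group `H¹(Y(N), k p)` of the locally symmetric space `Y(N)` of `PGL₂` over `F` and level `K₀(N)`;
`hecke p w`: the Hecke operator `T_w`. `System F N`: the systems of eigenvalues of the Hecke operators in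
`H¹(Y(N), ℂ)` (they are systems of algebraic integers); `eig f w`: the eigenvalue of `T_w`. -/
structure Data where
  /-- an algebraic closure of the field with `p` elements -/
  k : ℕ → Type
  /-- it is a field -/
  [field : ∀ p, Field (k p)]
  /-- the cyclotomic character -/
  cyclo : ∀ p, Γ → k p
  /-- reduction of algebraic integers -/
  red : ∀ p, Integers →+* k p
  /-- elliptic curves -/
  Curve : Fld → Type
  /-- the representation on the `p`-torsion -/
  tors : ∀ (p : ℕ) {F}, Curve F → Mod (k p) F
  /-- the conductor -/
  cond : ∀ {F}, Curve F → Level F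
  /-- complex multiplication by an order in the base field -/
  CMBase : ∀ {F}, Curve F → Prop
  /-- the elliptic curve is modular -/
  Modular : ∀ {F}, Curve F → Prop
  /-- the finite places -/
  place : Fld → Type
  /-- the norm -/
  norm : ∀ {F}, place F → ℕ
  /-- a Frobenius element -/
  frob : ∀ {F}, place F → Γ
  /-- the number `a_w` -/
  point : ∀ {F}, Curve F → place F → ℤ
  /-- places prime to `N` and unramified over the rational numbers -/
  Away : ∀ {F}, Level F → place F → Prop
  /-- places over `p` -/
  Over : ∀ {F}, ℕ → place F → Prop
  /-- the cohomology group -/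
  H : ∀ (_ : ℕ) (F : Fld), Level F → Type
  /-- it is a group -/
  [group : ∀ p F N, AddCommGroup (H p F N)]
  /-- it is a vector space -/
  [space : ∀ p F N, Module (k p) (H p F N)]
  /-- the Hecke operators -/
  hecke : ∀ (p : ℕ) {F N}, place F → H p F N →ₗ[k p] H p F N
  /-- the systems of eigenvalues in characteristic zero -/
  System : ∀ F, Level F → Type
  /-- the eigenvalues -/
  eig : ∀ {F N}, System F N → place F → Integers

attribute [instance] Data.field Data.group Data.space

namespace Data

variable (T : Data)

/-- The place does not divide `p N` and is unramified over `ℚ`. -/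
def Prime {F : Fld} (p : ℕ) (N : Level F) (w : T.place F) : Prop := T.Away N w ∧ ¬ T.Over p w

/-- The Hecke operator of `w` multiplies `c` by `a_w(E)`. -/
def Identity {F : Fld} {N : Level F} (p : ℕ) (E : T.Curve F) (c : T.H p F N) (w : T.place F) :
    Prop :=
  T.hecke p w c = (T.point E w : T.k p) • c

/-- The places of `F` whose Frobenius elements are in the class of `τ` in `Gal(L/F)`. -/
def Class (F L : Fld) (τ : Γ) : Set (T.place F) := {w | InClass F L τ (T.frob w)}

/-- `L` is a finite Galois extension of `F` without quadratic extensions of `F`, over which `E[p]` is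
irreducible; `τ ∈ Gal(Ω/F)`. -/
def Admissible {F : Fld} (p : ℕ) (E : T.Curve F) (L : Fld) (τ : Γ) : Prop :=
  FiniteGalois F L ∧ NoQuadratic F L ∧
    (∀ t, InSpan2 {t | ∃ g ∈ Gal L, t = (T.tors p E).toFun g} t) ∧ τ ∈ Gal F

/-- For some admissible `(L, τ)` and some class `c ≠ 0` in `H¹(Y(N), k p)` the equality
`T_w c = a_w(E) c` is true for more than `7/8` of the places of `F` whose Frobenius elements are in the
class of `τ` in `Gal(L/F)`. -/
def ModularMod {F : Fld} (N : Level F) (E : T.Curve F) (p : ℕ) : Prop :=
  ∃ L τ, T.Admissible p E L τ ∧ ∃ c : T.H p F N, c ≠ 0 ∧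
    UpperDensityIn T.norm (7 / 8) (T.Class F L τ)
      {w | T.Prime p N w ∧ T.Away (T.cond E) w ∧ T.Identity p E c w}

/-- For some level `N ≠ 0` the curve has the property `ModularMod` for infinitely many primes `p`. -/
def ModularModMany {F : Fld} (E : T.Curve F) : Prop :=
  ∃ N : Level F, NonZero N ∧ InfinitelyMany fun p => Large p ∧ T.ModularMod N E p

/-- The class `c` is an eigenvector of the Hecke operators of the places prime to `p N` and unramified
over `ℚ`. -/
def Eigen {F : Fld} {N : Level F} (p : ℕ) (c : T.H p F N) : Prop :=
  c ≠ 0 ∧ ∀ w, T.Prime p N w → ∃ a : T.k p, T.hecke p w c = a • c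

/-- The class `c` has the reductions of the eigenvalues of the system `f`. -/
def HasSystem {F : Fld} {N : Level F} (p : ℕ) (c : T.H p F N) (f : T.System F N) : Prop :=
  ∀ w, T.Prime p N w → T.hecke p w c = T.red p (T.eig f w) • c

/-- The eigenvalues of the system `f` are the numbers `a_w(E)`. -/
def Matches {F : Fld} {N : Level F} (f : T.System F N) (E : T.Curve F) : Prop :=
  ∀ w, T.Away N w → T.Away (T.cond E) w → T.eig f w = algebraMap ℤ Integers (T.point E w)

/-- Known (Scholze; Allen et al., Theorem 2.3.5, for the places): every eigenvector in the cohomology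
modulo `p` has a Galois representation; its determinant is cyclotomic. -/
def Scholze : Prop :=
  ∀ (F : Fld) (N : Level F) (p : ℕ) (c : T.H p F N), Quadratic F → NonZero N → Large p →
    T.Eigen p c → ∃ s : Mod (T.k p) F, (∀ g ∈ Gal F, (s.toFun g).det = T.cyclo p g) ∧
      ∀ w, T.Prime p N w → T.hecke p w c = (s.toFun (T.frob w)).trace • c

/-- Known (Weil pairing; Frobenius elements): the determinant of `E[p]` is cyclotomic and the trace of
the Frobenius element of a place of good reduction not over `p` is `a_w(E)`. -/
def Torsion : Prop :=
  ∀ (F : Fld) (p : ℕ) (E : T.Curve F), Large p →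
    (∀ g ∈ Gal F, ((T.tors p E).toFun g).det = T.cyclo p g) ∧
      ∀ w, T.Away (T.cond E) w → ¬ T.Over p w →
        ((T.tors p E).toFun (T.frob w)).trace = (T.point E w : T.k p)

/-- Known (finite generation of the integral cohomology; Deligne, Serre): for almost all `p` every
eigenvector modulo `p` comes from characteristic zero. -/
def Lifting : Prop :=
  ∀ (F : Fld) (N : Level F), Quadratic F → NonZero N → ∃ B : ℕ, ∀ p, Large p → B ≤ p →
    ∀ c : T.H p F N, T.Eigen p c → ∃ f : T.System F N, T.HasSystem p c f

/-- Known: systems of eigenvalues in characteristic zero can be reduced modulo `p`. -/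
def Reduction : Prop :=
  ∀ (F : Fld) (N : Level F) (p : ℕ) (f : T.System F N), Quadratic F → NonZero N → Large p →
    ∃ c : T.H p F N, c ≠ 0 ∧ T.HasSystem p c f

/-- Known (Eichler, Shimura, Harder; strong multiplicity one; local-global compatibility): a curve
without complex multiplication by an order in `F` is modular if and only if its numbers `a_w` occur
in the cohomology of some level. -/
def Matching : Prop :=
  ∀ (F : Fld) (E : T.Curve F), Quadratic F → ¬ T.CMBase E →
    (T.Modular E ↔ ∃ N : Level F, NonZero N ∧ ∃ f : T.System F N, T.Matches f E)

/-- Known (Serre): if `E` has no complex multiplication by an order in `F`, then `E[p]` is absolutely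
irreducible for infinitely many `p`. -/
def IrreducibleTorsion : Prop :=
  ∀ (F : Fld) (E : T.Curve F), Quadratic F → ¬ T.CMBase E →
    InfinitelyMany fun p => Large p ∧ Irreducible (T.tors p E)

/-- Known: for every class of places almost all members are prime to `p N`, and they are infinite in
number. -/
def Almost : Prop :=
  ∀ (F : Fld) (N : Level F) (E : T.Curve F) (p : ℕ) (L : Fld) (τ : Γ), Quadratic F → NonZero N →
    Large p → FiniteGalois F L → τ ∈ Gal F →
    UpperDensityIn T.norm (7 / 8) (T.Class F L τ) {w | T.Prime p N w ∧ T.Away (T.cond E) w}

/-- The first known facts: `k p` is algebraically closed of characteristic `p`; the Chebotarev density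
theorem; the number of places of bounded norm is finite; a place lies over one prime number only. -/
structure Basic : Prop where
  closed : ∀ p, Large p → IsAlgClosed (T.k p)
  char : ∀ p, Large p → CharP (T.k p) p
  chebotarev : ∀ F : Fld, Quadratic F → MC.Chebotarev F (T.norm (F := F)) T.frob
  frob_mem : ∀ (F : Fld) (w : T.place F), T.frob w ∈ Gal F
  places : ∀ (F : Fld) (x : ℕ), Quadratic F → {w : T.place F | T.norm w ≤ x}.Finite
  overOne : ∀ (F : Fld) (w : T.place F) (p q : ℕ), T.Over p w → T.Over q w → p = q

/-- Known facts on the cohomology: it is finite dimensional, the Hecke operators commute, there are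
finitely many systems of eigenvalues. -/
structure Cohomology : Prop where
  finite : ∀ (p : ℕ) (F : Fld) (N : Level F), Quadratic F → NonZero N → Large p →
    FiniteDimensional (T.k p) (T.H p F N)
  comm : ∀ (p : ℕ) (F : Fld) (N : Level F) (v w : T.place F) (c : T.H p F N), T.Prime p N v →
    T.Prime p N w → T.hecke p v (T.hecke p w c) = T.hecke p w (T.hecke p v c)
  systems : ∀ (F : Fld) (N : Level F), Quadratic F → NonZero N → Finite (T.System F N)

/-- The known facts. -/
structure Facts : Prop where
  basic : T.Basic
  cohomology : T.Cohomology
  scholze : T.Scholze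
  torsion : T.Torsion
  lifting : T.Lifting
  reduction : T.Reduction
  matching : T.Matching
  irreducible : T.IrreducibleTorsion
  almost : T.Almost

end Data

end Pool.Agent.Q50.ES.MM
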